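import Mathlib
import Pool.Agent.Q203.LF.Basic
import Pool.Agent.Q203.LF.Schauder
import Pool.Agent.Q203.LF.Flat
import Pool.Agent.Q203.LF.Dyn

/-!
# MP_e86906_an: the spectrum of compact Lipschitz operators

For every complete pointed metric space `M` and every Lipschitz map `f : M → M` with `f(0) = 0`
such that `f̂ : F(M) → F(M)` is compact, the set `A(f)` of orders of periodic points is finite and
`σ(f̂) \ {0} = ⋃_{n ∈ A(f)} U_n`.

The proof: compactness of `f̂` makes `f` radially flat at infinity and uniformly flat at small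
distances on bounded sets, with relatively compact images of bounded sets; hence `f` maps a closed
ball `B` into itself and all orbits enter `B`. A nonzero `λ ∈ σ(f̂)` is an eigenvalue of the adjoint
(Schauder and the Fredholm alternative), i.e. there is a nonzero Lipschitz `g` with `g ∘ f = λ g`;
following an orbit in `B` on which `g ≠ 0` one finds a periodic point `z` with `g(z) ≠ 0`.
-/

open scoped NNReal Topology
open Filter Set Metric

set_option autoImplicit false

namespace Pool.Agent.Results.MP_e86906_an.Spectrum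

open Q203.LF

universe u

section Lemmas

variable {M : Type u} [MetricSpace M] {o : M}

/-- The composition operator `g ↦ g ∘ f` on `Lip₀(M)`. -/
noncomputable def compOp (f : M → M) (L : ℝ≥0) (hL : LipschitzWith L f) (ho : f o = o) :
    Lip0 M o →L[ℂ] Lip0 M o :=
  LinearMap.mkContinuous
    { toFun := fun g => (⟨fun x => g.val (f x), by simp only [ho]; exact g.val_base, ‖g‖ * L,
        fun x y => (g.le_norm (f x) (f y)).trans (by
          rw [mul_assoc]; gcongr; exact hL.dist_le_mul x y)⟩ : lipSub M o)
      map_add' := fun _ _ => rfl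
      map_smul' := fun _ _ => rfl } (L : ℝ) (fun g => by
        refine Lip0.norm_le_of (by positivity) fun x y => ?_
        refine (g.le_norm (f x) (f y)).trans ?_
        rw [mul_comm (L : ℝ), mul_assoc]
        gcongr
        exact hL.dist_le_mul x y)

/-- The operator `f̂` exists. -/
lemma exists_hat (f : M → M) (L : ℝ≥0) (hL : LipschitzWith L f) (ho : f o = o) :
    ∃ T : Free M o →L[ℂ] Free M o, ∀ x, T (delta M o x) = delta M o (f x) := by
  let A0 : (Lip0 M o →L[ℂ] ℂ) →L[ℂ] (Lip0 M o →L[ℂ] ℂ) := adj (compOp f L hL ho)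
  let A : LipDual M o →L[ℂ] LipDual M o :=
    LinearMap.mkContinuous
      { toFun := fun Φ => A0 (toC M o Φ)
        map_add' := fun Φ Ψ => by rw [map_add, map_add]; rfl
        map_smul' := fun c Φ => by rw [map_smul, map_smul]; rfl } ‖A0‖ (fun Φ => by
          have h := A0.le_opNorm (toC M o Φ)
          rw [(toC M o).norm_map] at h
          exact h)
  have hAev : ∀ x, A (ev M o x) = ev M o (f x) := by
    intro x
    apply (toC M o).injective
    ext g
    rfl
  have hspan : ∀ w ∈ Submodule.span ℂ (Set.range (ev M o)),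
      A w ∈ Submodule.span ℂ (Set.range (ev M o)) := by
    intro w hw
    induction hw using Submodule.span_induction with
    | mem w hw =>
      obtain ⟨x, rfl⟩ := hw
      rw [hAev]
      exact Submodule.subset_span ⟨_, rfl⟩
    | zero => rw [map_zero]; exact Submodule.zero_mem _
    | add a b _ _ ha hb => rw [map_add]; exact Submodule.add_mem _ ha hb
    | smul c a _ ha => rw [map_smul]; exact Submodule.smul_mem _ _ ha
  have hmem : ∀ v : Free M o, A (inclD M o v) ∈ freeSub M o := by
    intro v
    have hv : inclD M o v ∈ closure ((Submodule.span ℂ (Set.range (ev M o)) :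
      Submodule ℂ (LipDual M o)) : Set (LipDual M o)) := (show freeSub M o from v).2
    exact map_mem_closure A.continuous hv (fun w hw => hspan w hw)
  refine ⟨LinearMap.mkContinuous
    { toFun := fun v => (⟨A (inclD M o v), hmem v⟩ : freeSub M o)
      map_add' := fun v w => ?_
      map_smul' := fun c v => ?_ } ‖A‖ (fun v => ?_), fun x => ?_⟩
  · apply (inclD M o).injective
    change A (inclD M o (v + w)) = A (inclD M o v) + A (inclD M o w)
    rw [map_add, map_add]
  · apply (inclD M o).injective
    change A (inclD M o (c • v)) = c • A (inclD M o v)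
    rw [map_smul, map_smul]
  · change ‖A (inclD M o v)‖ ≤ ‖A‖ * ‖v‖
    rw [← (inclD M o).norm_map v]
    exact A.le_opNorm _
  · apply (inclD M o).injective
    exact hAev x

/-- periodic orbits give eigenvectors -/
lemma periodic_eigen (T : Free M o →L[ℂ] Free M o) (f : M → M)
    (hf : ∀ x, T (delta M o x) = delta M o (f x)) (n : ℕ) (hn : n ∈ perOrders o f) (μ : ℂ)
    (hμ : μ ^ n = 1) : μ ≠ 0 ∧ ¬ Function.Bijective (fun v => T v - μ • v) := by
  obtain ⟨hn1, x, hxo, hx, hmin⟩ := hn
  have hμ0 : μ ≠ 0 := by
    rintro rfl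
    rw [zero_pow (by omega)] at hμ
    exact zero_ne_one hμ
  refine ⟨hμ0, fun hbij => ?_⟩
  let t : ℕ → Free M o := fun k => (μ⁻¹) ^ k • delta M o (f^[k] x)
  set γ : Free M o := ∑ k ∈ Finset.range n, t k with hγ
  have htn : t n = t 0 := by
    simp only [t]
    rw [hx, inv_pow, hμ, inv_one, pow_zero, Function.iterate_zero, id]
  have hTt : ∀ k, T (t k) = μ • t (k + 1) := by
    intro k
    simp only [t]
    rw [map_smul, hf, smul_smul, Function.iterate_succ_apply', pow_succ]
    congr 1
    field_simp
  have hTγ : T γ = μ • γ := by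
    rw [hγ, map_sum, Finset.smul_sum]
    simp_rw [hTt]
    have h1 : ∑ k ∈ Finset.range n, t (k + 1) = ∑ k ∈ Finset.range n, t k := by
      have h2 := Finset.sum_range_succ' t n
      have h3 := Finset.sum_range_succ t n
      rw [h3, htn] at h2
      exact (add_right_cancel h2).symm
    rw [← Finset.smul_sum, h1, Finset.smul_sum]
  have hγ0 : γ = 0 := by
    apply hbij.1
    simp [hTγ]
  -- test
  let S : Set M := insert o ((fun k => f^[k] x) '' (Finset.Ico 1 n : Finset ℕ))
  have hSfin : S.Finite := ((Finset.finite_toSet _).image _).insert _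
  have hxS : x ∉ S := by
    intro h
    rcases h with h | ⟨k, hk, hkx⟩
    · exact hxo h
    · rw [Finset.coe_Ico, Set.mem_Ico] at hk
      exact hmin k hk.1 hk.2 hkx
  have hSne : S.Nonempty := ⟨o, Or.inl rfl⟩
  have hpos : 0 < infDist x S := (hSfin.isClosed.notMem_iff_infDist_pos hSne).1 hxS
  have hlip : ∀ a b, |infDist a S - infDist b S| ≤ dist a b := by
    intro a b
    have := (lipschitz_infDist_pt S).dist_le_mul a b
    simpa [Real.dist_eq] using this
  have ho : infDist o S = 0 := infDist_zero_of_mem (Or.inl rfl)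
  have key : incl M o γ (mkReal (fun a => infDist a S) hlip) = ((infDist x S : ℝ) : ℂ) := by
    rw [hγ, map_sum]
    simp only [t, map_smul, incl_delta]
    rw [sum_apply]
    simp only [smul_apply, ev_apply, mkReal_val, ho, sub_zero, smul_eq_mul]
    rw [Finset.sum_eq_single_of_mem 0 (Finset.mem_range.2 hn1)]
    · simp
    · intro k hk hk0
      have : infDist (f^[k] x) S = 0 := by
        apply infDist_zero_of_mem
        right
        refine ⟨k, ?_, rfl⟩
        rw [Finset.coe_Ico, Set.mem_Ico]
        exact ⟨Nat.one_le_iff_ne_zero.2 hk0, Finset.mem_range.1 hk⟩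
      rw [this]
      simp
  rw [hγ0, map_zero] at key
  have h3 : ((infDist x S : ℝ) : ℂ) = 0 := key.symm
  rw [Complex.ofReal_eq_zero] at h3
  exact hpos.ne' h3

theorem main_thm [CompleteSpace M] (f : M → M) (T : Free M o →L[ℂ] Free M o)
    (hf : ∀ x, T (delta M o x) = delta M o (f x)) (hT : IsCompactOperator T) :
    (perOrders o f).Finite ∧
      {μ : ℂ | ¬ Function.Bijective (fun v => T v - μ • v)} \ {0} =
        ⋃ n ∈ perOrders o f, {z : ℂ | z ^ n = 1} := by
  have hfo : f o = o := map_base T f hf
  obtain ⟨R0, hR0⟩ := radial T hT f hf (1 / 2) (by norm_num)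
  set R1 := max R0 1 with hR1
  set L := max 1 ‖T‖ with hLd
  have hR1pos : 1 ≤ R1 := le_max_right _ _
  have hL1 : 1 ≤ L := le_max_left _ _
  set R' := L * R1 with hR'
  have hR'1 : R1 ≤ R' := by nlinarith
  set B : Set M := {x | dist x o ≤ R'} with hBd
  have hout : ∀ x, R' ≤ dist x o → dist (f x) o ≤ 1 / 2 * dist x o := by
    intro x hx
    exact hR0 x ((le_max_left _ _).trans (hR'1.trans hx))
  have hB : ∀ x ∈ B, f x ∈ B := by
    intro x hx
    change dist x o ≤ R' at hx
    change dist (f x) o ≤ R'
    rcases le_total R1 (dist x o) with h | h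
    · have := hR0 x ((le_max_left _ _).trans h)
      linarith [dist_nonneg (x := x) (y := o)]
    · have h1 := map_dist_le T f hf x o
      rw [hfo] at h1
      calc dist (f x) o ≤ ‖T‖ * dist x o := h1
        _ ≤ L * R1 := by
            gcongr
            exact le_max_right _ _
  have hitB : ∀ y ∈ B, ∀ k, f^[k] y ∈ B := by
    intro y hy k
    induction k with
    | zero => exact hy
    | succ k ih => rw [Function.iterate_succ_apply']; exact hB _ ih
  have henter : ∀ x, ∃ k, f^[k] x ∈ B := by
    intro x
    by_contra hcon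
    push Not at hcon
    have h1 : ∀ k, R' < dist (f^[k] x) o := fun k => not_le.1 (hcon k)
    have h2 : ∀ k, dist (f^[k] x) o ≤ (1 / 2) ^ k * dist x o := by
      intro k
      induction k with
      | zero => simp
      | succ k ih =>
        rw [Function.iterate_succ_apply']
        calc dist (f (f^[k] x)) o ≤ 1 / 2 * dist (f^[k] x) o := hout _ (h1 k).le
          _ ≤ 1 / 2 * ((1 / 2) ^ k * dist x o) := by gcongr
          _ = (1 / 2) ^ (k + 1) * dist x o := by rw [pow_succ]; ring
    have h3 : Tendsto (fun k : ℕ => (1 / 2 : ℝ) ^ k * dist x o) atTop (𝓝 (0 * dist x o)) :=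
      (tendsto_pow_atTop_nhds_zero_of_lt_one (by norm_num) (by norm_num)).mul_const _
    rw [zero_mul] at h3
    have h4 : R' ≤ 0 := ge_of_tendsto' h3 (fun k => (h1 k).le.trans (h2 k))
    linarith
  have hperB : ∀ z n, 0 < n → f^[n] z = z → z ∈ B := by
    intro z n hn hz
    obtain ⟨k, hk⟩ := henter z
    have h1 : f^[n * k] z = z := by
      have : Function.IsPeriodicPt f n z := hz
      exact this.mul_const k
    have h2 : f^[n * k - k] (f^[k] z) ∈ B := hitB _ hk _
    rw [← Function.iterate_add_apply] at h2
    have h3 : n * k - k + k = n * k := Nat.sub_add_cancel (Nat.le_mul_of_pos_left k hn)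
    rwa [h3, h1] at h2
  have hBc : ∀ x : ℕ → M, (∀ n, x n ∈ B) → ∃ ψ : ℕ → ℕ, StrictMono ψ ∧
      CauchySeq (fun n => f (x (ψ n))) := fun x hx => image_subseq T hT f hf R' x hx
  have hflat : ∀ ε > 0, ∃ δ > 0, ∀ x ∈ B, ∀ y ∈ B, dist x y ≤ δ →
      dist (f x) (f y) ≤ ε * dist x y := by
    intro ε hε
    obtain ⟨r, hr, h⟩ := local_flat T hT f hf R' ε hε
    exact ⟨r, hr, fun x hx y hy hd => h x y hx hy hd⟩
  have hcont : Continuous f := by
    have : LipschitzWith ⟨‖T‖, norm_nonneg _⟩ f :=
      LipschitzWith.of_dist_le_mul (fun x y => map_dist_le T f hf x y)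
    exact this.continuous
  refine ⟨finite_orders f B hB hBc hflat hperB, ?_⟩
  ext μ
  simp only [Set.mem_sdiff, mem_ofPred_eq, mem_singleton_iff, mem_iUnion, exists_prop]
  constructor
  · rintro ⟨hμ, hμ0⟩
    obtain ⟨φ, hφ0, hφ⟩ := exists_adj_eigen T hT μ hμ0 hμ
    set g : M → ℂ := fun x => φ (delta M o x) with hg
    obtain ⟨x, hx⟩ : ∃ x, g x ≠ 0 := by
      by_contra hcon
      push Not at hcon
      exact hφ0 (functional_ext φ hcon)
    have hgf : ∀ x, g (f x) = μ * g x := by
      intro x
      simp only [hg]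
      rw [← hf, hφ]
    obtain ⟨k, hk⟩ := henter x
    have hit : ∀ k, g (f^[k] x) = μ ^ k * g x := by
      intro k
      induction k with
      | zero => simp
      | succ k ih => rw [Function.iterate_succ_apply', hgf, ih, pow_succ]; ring
    obtain ⟨n, hn, hμn⟩ := eigen_periodic (o := o) f B hB hcont hBc hflat g ‖φ‖
      (fun x y => functional_lip φ x y) (by simp only [hg]; rw [delta_base, map_zero]) μ hμ0 hgf
      (f^[k] x) hk (by rw [hit]; exact mul_ne_zero (pow_ne_zero _ hμ0) hx)
    exact ⟨n, hn, hμn⟩
  · rintro ⟨n, hn, hμn⟩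
    have := periodic_eigen T f hf n hn μ hμn
    exact ⟨this.2, this.1⟩

end Lemmas

/-- **Result.** Let `M` be a complete metric space with base point `o` and `f : M → M` Lipschitz with
`f(o) = o`. There is exactly one bounded operator `T = f̂` on `F(M)` with `T δ(x) = δ(f(x))` for all
`x`, and if `T` is compact then `A(f)` is finite and `σ(T) \ {0} = ⋃_{n ∈ A(f)} U_n`. -/
theorem result (M : Type u) [MetricSpace M] [CompleteSpace M] (o : M) (f : M → M)
    (L : ℝ≥0) (hL : LipschitzWith L f) (ho : f o = o) :
    ∃ T : Free M o →L[ℂ] Free M o,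
      (∀ x, T (delta M o x) = delta M o (f x)) ∧
      (∀ S : Free M o →L[ℂ] Free M o, (∀ x, S (delta M o x) = delta M o (f x)) → S = T) ∧
      (IsCompactOperator T →
        (perOrders o f).Finite ∧
          {μ : ℂ | ¬ Function.Bijective (fun v => T v - μ • v)} \ {0} =
            ⋃ n ∈ perOrders o f, {z : ℂ | z ^ n = 1}) := by
  obtain ⟨T, hT⟩ := exists_hat f L hL ho
  refine ⟨T, hT, fun S hS => ?_, fun hc => main_thm f T hT hc⟩
  refine ContinuousLinearMap.ext_on (dense_span (M := M) (o := o)) ?_
  rintro _ ⟨x, rfl⟩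
  rw [hS, hT]

end Pool.Agent.Results.MP_e86906_an.Spectrum
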